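import Mathlib.Logic.Relation
import Mathlib.Tactic

/-!
# Confluence of linearized combinatory logic with surjective pairing

Rules: `I x → x`, `K x y → x`, `S x y z → (x z)(y z)`, `D₁(D x y) → x`, `D₂(D x y) → y`, and
`D (D₁ x)(D₂ y) → x`, `D (D₁ x)(D₂ y) → y` provided `x ↔* y` (semi-equational conditions).
We prove that the rewrite relation is confluent.
-/

namespace Pool.Agent.Results.MP_a981ee_lc.Confluence

open Relation

/-- Applicative terms built from variables (indexed by an arbitrary type `V`) and the constants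
`I`, `K`, `S`, `D`, `D₁`, `D₂` by one binary application operation. -/
inductive Term (V : Type) : Type
  | var : V → Term V
  | I : Term V
  | K : Term V
  | S : Term V
  | D : Term V
  | D1 : Term V
  | D2 : Term V
  | app : Term V → Term V → Term V

open Term

/-- One contraction, inside any context, of an instance of one of the rules (1)-(5), or of an
instance of rule (6) or (7) whose condition `P x y` holds. -/
inductive Step {V : Type} (P : Term V → Term V → Prop) : Term V → Term V → Prop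
  | rule1 (x : Term V) : Step P (app I x) x
  | rule2 (x y : Term V) : Step P (app (app K x) y) x
  | rule3 (x y z : Term V) : Step P (app (app (app S x) y) z) (app (app x z) (app y z))
  | rule4 (x y : Term V) : Step P (app D1 (app (app D x) y)) x
  | rule5 (x y : Term V) : Step P (app D2 (app (app D x) y)) y
  | rule6 (x y : Term V) : P x y → Step P (app (app D (app D1 x)) (app D2 y)) x
  | rule7 (x y : Term V) : P x y → Step P (app (app D (app D1 x)) (app D2 y)) y
  | left (s s' t : Term V) : Step P s s' → Step P (app s t) (app s' t)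
  | right (s t t' : Term V) : Step P t t' → Step P (app s t) (app s t')

/-- The stratification: `→₀` is empty, and `→ₙ₊₁` contracts a redex inside any context, the
condition of the rules (6) and (7) being convertibility for `→ₙ`. -/
def RedN {V : Type} : ℕ → Term V → Term V → Prop
  | 0 => fun _ _ => False
  | n + 1 => Step (EqvGen (RedN n))

/-- The rewrite relation `→` of the system, the union of all `→ₙ`. -/
def Red {V : Type} (s t : Term V) : Prop := ∃ n : ℕ, RedN n s t

/-- Confluence of a relation. -/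
def IsConfluent {A : Type} (r : A → A → Prop) : Prop :=
  ∀ t t₁ t₂ : A, ReflTransGen r t t₁ → ReflTransGen r t t₂ →
    ∃ u : A, ReflTransGen r t₁ u ∧ ReflTransGen r t₂ u

section Proof

variable {V : Type}

/-! ### The equational theory and the collapse of the levels -/

/-- The equational theory. -/
inductive E : Term V → Term V → Prop
  | refl (s : Term V) : E s s
  | symm {s t : Term V} : E s t → E t s
  | trans {s t u : Term V} : E s t → E t u → E s u
  | congr {s s' t t' : Term V} : E s s' → E t t' → E (app s t) (app s' t')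
  | axI (x : Term V) : E (app I x) x
  | axK (x y : Term V) : E (app (app K x) y) x
  | axS (x y z : Term V) : E (app (app (app S x) y) z) (app (app x z) (app y z))
  | ax1 (x y : Term V) : E (app D1 (app (app D x) y)) x
  | ax2 (x y : Term V) : E (app D2 (app (app D x) y)) y
  | axD (x : Term V) : E (app (app D (app D1 x)) (app D2 x)) x

theorem step_E {P : Term V → Term V → Prop} (hP : ∀ x y, P x y → E x y) {s t : Term V}
    (h : Step P s t) : E s t := by
  induction h with
  | rule1 x => exact E.axI x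
  | rule2 x y => exact E.axK x y
  | rule3 x y z => exact E.axS x y z
  | rule4 x y => exact E.ax1 x y
  | rule5 x y => exact E.ax2 x y
  | rule6 x y h =>
      exact (E.congr (E.refl _) (E.congr (E.refl _) (hP _ _ h).symm)).trans (E.axD x)
  | rule7 x y h =>
      exact (E.congr (E.congr (E.refl _) (E.congr (E.refl _) (hP _ _ h))) (E.refl _)).trans
        (E.axD y)
  | left s s' t _ ih => exact E.congr ih (E.refl t)
  | right s t t' _ ih => exact E.congr (E.refl s) ih

theorem eqvGen_E {r : Term V → Term V → Prop} (hr : ∀ x y, r x y → E x y) {s t : Term V}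
    (h : EqvGen r s t) : E s t := by
  induction h with
  | rel x y h => exact hr _ _ h
  | refl x => exact E.refl x
  | symm x y _ ih => exact ih.symm
  | trans x y z _ _ ih1 ih2 => exact ih1.trans ih2

theorem redN_E (n : ℕ) : ∀ s t : Term V, RedN n s t → E s t := by
  induction n with
  | zero => intro s t h; exact h.elim
  | succ n ih =>
      intro s t h
      exact step_E (fun x y hxy => eqvGen_E ih hxy) h

theorem eqvGen_left {P : Term V → Term V → Prop} {s s' : Term V} (t : Term V)
    (h : EqvGen (Step P) s s') : EqvGen (Step P) (app s t) (app s' t) := by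
  induction h with
  | rel x y h => exact EqvGen.rel _ _ (Step.left _ _ _ h)
  | refl x => exact EqvGen.refl _
  | symm x y _ ih => exact EqvGen.symm _ _ ih
  | trans x y z _ _ ih1 ih2 => exact EqvGen.trans _ _ _ ih1 ih2

theorem eqvGen_right {P : Term V → Term V → Prop} (s : Term V) {t t' : Term V}
    (h : EqvGen (Step P) t t') : EqvGen (Step P) (app s t) (app s t') := by
  induction h with
  | rel x y h => exact EqvGen.rel _ _ (Step.right _ _ _ h)
  | refl x => exact EqvGen.refl _
  | symm x y _ ih => exact EqvGen.symm _ _ ih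
  | trans x y z _ _ ih1 ih2 => exact EqvGen.trans _ _ _ ih1 ih2

theorem E_level_one {s t : Term V} (h : E s t) : EqvGen (RedN 1) s t := by
  induction h with
  | refl s => exact EqvGen.refl _
  | symm _ ih => exact EqvGen.symm _ _ ih
  | trans _ _ ih1 ih2 => exact EqvGen.trans _ _ _ ih1 ih2
  | congr _ _ ih1 ih2 => exact EqvGen.trans _ _ _ (eqvGen_left _ ih1) (eqvGen_right _ ih2)
  | axI x => exact EqvGen.rel _ _ (Step.rule1 x)
  | axK x y => exact EqvGen.rel _ _ (Step.rule2 x y)
  | axS x y z => exact EqvGen.rel _ _ (Step.rule3 x y z)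
  | ax1 x y => exact EqvGen.rel _ _ (Step.rule4 x y)
  | ax2 x y => exact EqvGen.rel _ _ (Step.rule5 x y)
  | axD x => exact EqvGen.rel _ _ (Step.rule6 x x (EqvGen.refl _))

theorem step_mono {P Q : Term V → Term V → Prop} (h : ∀ x y, P x y → Q x y) {s t : Term V}
    (hs : Step P s t) : Step Q s t := by
  induction hs with
  | rule1 x => exact Step.rule1 x
  | rule2 x y => exact Step.rule2 x y
  | rule3 x y z => exact Step.rule3 x y z
  | rule4 x y => exact Step.rule4 x y
  | rule5 x y => exact Step.rule5 x y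
  | rule6 x y hx => exact Step.rule6 x y (h _ _ hx)
  | rule7 x y hx => exact Step.rule7 x y (h _ _ hx)
  | left s s' t _ ih => exact Step.left _ _ _ ih
  | right s t t' _ ih => exact Step.right _ _ _ ih

theorem red_iff (s t : Term V) : Red s t ↔ Step E s t := by
  constructor
  · rintro ⟨n, h⟩
    cases n with
    | zero => exact h.elim
    | succ n => exact step_mono (fun x y hx => eqvGen_E (redN_E n) hx) h
  · intro h
    exact ⟨2, step_mono (fun x y hx => E_level_one hx) h⟩

/-- Many-step reduction of the (collapsed) system. -/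
abbrev RS (s t : Term V) : Prop := ReflTransGen (Step E) s t

theorem RS.lft {s s' : Term V} (t : Term V) (h : RS s s') : RS (app s t) (app s' t) := by
  induction h with
  | refl => exact ReflTransGen.refl
  | tail _ h ih => exact ih.tail (Step.left _ _ _ h)

theorem RS.rgt (s : Term V) {t t' : Term V} (h : RS t t') : RS (app s t) (app s t') := by
  induction h with
  | refl => exact ReflTransGen.refl
  | tail _ h ih => exact ih.tail (Step.right _ _ _ h)

theorem RS.ap {s s' t t' : Term V} (h1 : RS s s') (h2 : RS t t') :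
    RS (app s t) (app s' t') :=
  (RS.lft t h1).trans (RS.rgt s' h2)

theorem RS.toE {s t : Term V} (h : RS s t) : E s t := by
  induction h with
  | refl => exact E.refl _
  | tail _ h ih => exact ih.trans (step_E (fun _ _ h => h) h)

/-! ### Partial applications and content trees -/

/-- Partial applications. -/
inductive Act : Term V → Prop
  | I : Act I
  | K : Act K
  | K1 (a) : Act (app K a)
  | S : Act S
  | S1 (a) : Act (app S a)
  | S2 (a b) : Act (app (app S a) b)
  | D : Act D
  | Da (a) : Act (app D a)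
  | D1 : Act D1
  | D2 : Act D2

/-- The projection constants. -/
def pr : Bool → Term V
  | true => D1
  | false => D2

/-- Iterated projections; the head of the list is the outermost projection. -/
def Dp : List Bool → Term V → Term V
  | [], v => v
  | i :: γ, v => app (pr i) (Dp γ v)

/-- The expansion of a term. -/
def dl (a b : Term V) : Term V := app (app D (app D1 a)) (app D2 b)

/-- Content trees for `Dp γ u` with leftmost content `v`. -/
inductive Tr (u : Term V) : List Bool → Term V → Term V → Prop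
  | leaf (γ v) : Act v → E v u → Tr u γ (Dp γ v) v
  | node (γ X Y v v') : Tr u (true :: γ) X v → Tr u (false :: γ) Y v' →
      Tr u γ (app (app D X) Y) v

theorem Dp_E {γ : List Bool} {s t : Term V} (h : E s t) : E (Dp γ s) (Dp γ t) := by
  induction γ with
  | nil => exact h
  | cons i γ ih => exact E.congr (E.refl _) ih

theorem Tr.toE {u : Term V} {γ : List Bool} {X v : Term V} (h : Tr u γ X v) :
    E X (Dp γ u) := by
  induction h with
  | leaf γ v _ h => exact Dp_E h
  | node γ X Y v v' _ _ ih1 ih2 =>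
      exact (E.congr (E.congr (E.refl _) ih1) ih2).trans (E.axD _)

theorem Tr.content {u : Term V} {γ : List Bool} {X v : Term V} (h : Tr u γ X v) :
    Act v ∧ E v u := by
  induction h with
  | leaf γ v h1 h2 => exact ⟨h1, h2⟩
  | node γ X Y v v' _ _ ih1 _ => exact ih1

/-- A content tree reduces to the projection of its leftmost content. -/
theorem Tr.toRS {u : Term V} {γ : List Bool} {X v : Term V} (h : Tr u γ X v) :
    RS X (Dp γ v) := by
  induction h with
  | leaf γ v _ h => exact ReflTransGen.refl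
  | node γ X Y v v' h1 h2 ih1 ih2 =>
      refine (RS.ap (RS.rgt _ ih1) ih2).tail (Step.rule6 _ _ ?_)
      exact Dp_E (h1.content.2.trans h2.content.2.symm)

/-! ### The orthogonal auxiliary system -/

/-- One step of the auxiliary system. -/
inductive B : Term V → Term V → Prop
  | rI (x) : B (app I x) x
  | rK (x y) : B (app (app K x) y) x
  | rS (x y z) : B (app (app (app S x) y) z) (app (app x z) (app y z))
  | r1 (x y) : B (app D1 (app (app D x) y)) x
  | r2 (x y) : B (app D2 (app (app D x) y)) y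
  | rF (u X Y v w) : Tr u [] (app (app D X) Y) v → B (app (app (app D X) Y) w) (app v w)
  | left {s s'} (t) : B s s' → B (app s t) (app s' t)
  | right (s) {t t'} : B t t' → B (app s t) (app s t')

/-- Many steps of the auxiliary system. -/
abbrev BS (s t : Term V) : Prop := ReflTransGen B s t

theorem BS.lft {s s' : Term V} (t : Term V) (h : BS s s') : BS (app s t) (app s' t) := by
  induction h with
  | refl => exact ReflTransGen.refl
  | tail _ h ih => exact ih.tail (B.left _ h)

theorem BS.rgt (s : Term V) {t t' : Term V} (h : BS t t') : BS (app s t) (app s t') := by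
  induction h with
  | refl => exact ReflTransGen.refl
  | tail _ h ih => exact ih.tail (B.right _ h)

theorem BS.ap {s s' t t' : Term V} (h1 : BS s s') (h2 : BS t t') :
    BS (app s t) (app s' t') :=
  (BS.lft t h1).trans (BS.rgt s' h2)

theorem B.toRS {s t : Term V} (h : B s t) : RS s t := by
  induction h with
  | rI x => exact ReflTransGen.single (Step.rule1 x)
  | rK x y => exact ReflTransGen.single (Step.rule2 x y)
  | rS x y z => exact ReflTransGen.single (Step.rule3 x y z)
  | r1 x y => exact ReflTransGen.single (Step.rule4 x y)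
  | r2 x y => exact ReflTransGen.single (Step.rule5 x y)
  | rF u X Y v w h => exact RS.lft w h.toRS
  | left t _ ih => exact RS.lft t ih
  | right s _ ih => exact RS.rgt s ih

theorem BS.toRS {s t : Term V} (h : BS s t) : RS s t := by
  induction h with
  | refl => exact ReflTransGen.refl
  | tail _ h ih => exact ih.trans h.toRS

theorem BS.toE {s t : Term V} (h : BS s t) : E s t := (BS.toRS h).toE

/-- Parallel reduction for the auxiliary system. -/
inductive Bp : Term V → Term V → Prop
  | refl (s) : Bp s s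
  | app {s s' t t'} : Bp s s' → Bp t t' → Bp (app s t) (app s' t')
  | rI {x x'} : Bp x x' → Bp (Term.app I x) x'
  | rK {x x' y} : Bp x x' → Bp (Term.app (Term.app K x) y) x'
  | rS {x x' y y' z z'} : Bp x x' → Bp y y' → Bp z z' →
      Bp (Term.app (Term.app (Term.app S x) y) z) (Term.app (Term.app x' z') (Term.app y' z'))
  | r1 {x x' y} : Bp x x' → Bp (Term.app D1 (Term.app (Term.app D x) y)) x'
  | r2 {x y y'} : Bp y y' → Bp (Term.app D2 (Term.app (Term.app D x) y)) y'
  | rF {u X Y v v' w w'} : Tr u [] (Term.app (Term.app D X) Y) v → Bp v v' → Bp w w' →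
      Bp (Term.app (Term.app (Term.app D X) Y) w) (Term.app v' w')

theorem B.toBp {s t : Term V} (h : B s t) : Bp s t := by
  induction h with
  | rI x => exact Bp.rI (Bp.refl _)
  | rK x y => exact Bp.rK (Bp.refl _)
  | rS x y z => exact Bp.rS (Bp.refl _) (Bp.refl _) (Bp.refl _)
  | r1 x y => exact Bp.r1 (Bp.refl _)
  | r2 x y => exact Bp.r2 (Bp.refl _)
  | rF u X Y v w h => exact Bp.rF h (Bp.refl _) (Bp.refl _)
  | left t _ ih => exact Bp.app ih (Bp.refl _)
  | right s _ ih => exact Bp.app (Bp.refl _) ih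

theorem Bp.toBS {s t : Term V} (h : Bp s t) : BS s t := by
  induction h with
  | refl s => exact ReflTransGen.refl
  | app _ _ ih1 ih2 => exact BS.ap ih1 ih2
  | rI _ ih => exact (ReflTransGen.single (B.rI _)).trans ih
  | rK _ ih => exact (ReflTransGen.single (B.rK _ _)).trans ih
  | rS _ _ _ ih1 ih2 ih3 =>
      exact (ReflTransGen.single (B.rS _ _ _)).trans (BS.ap (BS.ap ih1 ih3) (BS.ap ih2 ih3))
  | r1 _ ih => exact (ReflTransGen.single (B.r1 _ _)).trans ih
  | r2 _ ih => exact (ReflTransGen.single (B.r2 _ _)).trans ih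
  | rF h _ _ ih1 ih2 =>
      exact (ReflTransGen.single (B.rF _ _ _ _ _ h)).trans (BS.ap ih1 ih2)

theorem Bp.toE {s t : Term V} (h : Bp s t) : E s t := h.toBS.toE

theorem act_par {v v' : Term V} (hv : Act v) (h : Bp v v') : Act v' := by
  cases hv with
  | I => cases h; exact Act.I
  | K => cases h; exact Act.K
  | K1 a =>
      cases h with
      | refl => exact Act.K1 _
      | app h1 h2 => cases h1; exact Act.K1 _
  | S => cases h; exact Act.S
  | S1 a =>
      cases h with
      | refl => exact Act.S1 _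
      | app h1 h2 => cases h1; exact Act.S1 _
  | S2 a b =>
      cases h with
      | refl => exact Act.S2 _ _
      | app h1 h2 =>
          cases h1 with
          | refl => exact Act.S2 _ _
          | app h1 h3 => cases h1; exact Act.S2 _ _
  | D => cases h; exact Act.D
  | Da a =>
      cases h with
      | refl => exact Act.Da _
      | app h1 h2 => cases h1; exact Act.Da _
  | D1 => cases h; exact Act.D1
  | D2 => cases h; exact Act.D2

theorem act_ne_pair {v x y : Term V} (hv : Act v) (h : v = app (app D x) y) : False := by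
  subst h; cases hv

theorem Dp_ne_pair {γ : List Bool} {v x y : Term V} (hv : Act v)
    (h : Dp γ v = app (app D x) y) : False := by
  cases γ with
  | nil => exact act_ne_pair hv h
  | cons i γ => cases i <;> simp [Dp, pr] at h

theorem Dp_inj {γ : List Bool} {v v' : Term V} (h : Dp γ v = Dp γ v') : v = v' := by
  induction γ with
  | nil => exact h
  | cons i γ ih =>
      simp only [Dp, Term.app.injEq, true_and] at h
      exact ih h

theorem leaf_par {γ : List Bool} {v : Term V} (hv : Act v) :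
    ∀ {X' : Term V}, Bp (Dp γ v) X' → ∃ v', X' = Dp γ v' ∧ Bp v v' ∧ Act v' := by
  induction γ with
  | nil => intro X' h; exact ⟨X', rfl, h, act_par hv h⟩
  | cons i γ ih =>
      intro X' h
      simp only [Dp] at h
      generalize hX : Dp γ v = X at h
      cases i with
      | true =>
          simp only [pr] at h
          cases h with
          | refl => subst hX; exact ⟨v, rfl, Bp.refl _, hv⟩
          | app h1 h2 =>
              cases h1
              subst hX
              obtain ⟨v', rfl, h3, h4⟩ := ih h2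
              exact ⟨v', rfl, h3, h4⟩
          | r1 h => exact (Dp_ne_pair hv hX).elim
      | false =>
          simp only [pr] at h
          cases h with
          | refl => subst hX; exact ⟨v, rfl, Bp.refl _, hv⟩
          | app h1 h2 =>
              cases h1
              subst hX
              obtain ⟨v', rfl, h3, h4⟩ := ih h2
              exact ⟨v', rfl, h3, h4⟩
          | r2 h => exact (Dp_ne_pair hv hX).elim

theorem pair_par {X Y N : Term V} (h : Bp (app (app D X) Y) N) :
    ∃ X' Y', N = app (app D X') Y' ∧ Bp X X' ∧ Bp Y Y' := by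
  cases h with
  | refl => exact ⟨X, Y, rfl, Bp.refl _, Bp.refl _⟩
  | app h1 h2 =>
      cases h1 with
      | refl => exact ⟨X, _, rfl, Bp.refl _, h2⟩
      | app h1 h3 => cases h1; exact ⟨_, _, rfl, h3, h2⟩

theorem Tr_par {u : Term V} {γ : List Bool} {X v : Term V} (h : Tr u γ X v) :
    ∀ {X' : Term V}, Bp X X' → ∃ v', Tr u γ X' v' ∧ Bp v v' := by
  induction h with
  | leaf γ v hv hE =>
      intro X' h
      obtain ⟨v', rfl, h1, h2⟩ := leaf_par hv h
      exact ⟨v', Tr.leaf _ _ h2 (h1.toE.symm.trans hE), h1⟩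
  | node γ X Y v v' _ _ ih1 ih2 =>
      intro N h
      obtain ⟨X', Y', rfl, h1, h2⟩ := pair_par h
      obtain ⟨a, ha, ha'⟩ := ih1 h1
      obtain ⟨b, hb, hb'⟩ := ih2 h2
      exact ⟨a, Tr.node _ _ _ _ _ ha hb, ha'⟩

theorem Tr_unique {u : Term V} {γ : List Bool} {X v : Term V} (h : Tr u γ X v) :
    ∀ {u' v' : Term V}, Tr u' γ X v' → v = v' := by
  induction h with
  | leaf γ v hv hE =>
      intro u' v' h
      generalize hX : Dp γ v = X at h
      cases h with
      | leaf _ _ h1 h2 => exact Dp_inj hX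
      | node => exact (Dp_ne_pair hv hX).elim
  | node γ X Y v v' _ _ ih1 ih2 =>
      intro u' v'' h
      generalize hX : app (app D X) Y = Z at h
      cases h with
      | leaf _ _ h1 h2 => exact (Dp_ne_pair h1 hX.symm).elim
      | node _ _ _ _ _ h1 h2 =>
          simp only [Term.app.injEq, true_and] at hX
          obtain ⟨rfl, rfl⟩ := hX
          exact ih1 h1

/-- Size of a term. -/
def size : Term V → ℕ
  | app s t => size s + size t + 1
  | _ => 1

theorem size_Dp (γ : List Bool) (v : Term V) : size v ≤ size (Dp γ v) := by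
  induction γ with
  | nil => exact le_rfl
  | cons i γ ih => simp only [Dp, size]; omega

theorem Tr.size_le {u : Term V} {γ : List Bool} {X v : Term V} (h : Tr u γ X v) :
    size v ≤ size X := by
  induction h with
  | leaf γ v _ _ => exact size_Dp _ _
  | node γ X Y v v' _ _ ih1 ih2 => simp only [size]; omega

theorem K_par {x N : Term V} (h : Bp (app K x) N) : ∃ x1, N = app K x1 ∧ Bp x x1 := by
  cases h with
  | refl => exact ⟨_, rfl, Bp.refl _⟩
  | app h1 h2 => cases h1; exact ⟨_, rfl, h2⟩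

theorem S_par {x y N : Term V} (h : Bp (app (app S x) y) N) :
    ∃ x1 y1, N = app (app S x1) y1 ∧ Bp x x1 ∧ Bp y y1 := by
  cases h with
  | refl => exact ⟨_, _, rfl, Bp.refl _, Bp.refl _⟩
  | app h1 h2 =>
      cases h1 with
      | refl => exact ⟨_, _, rfl, Bp.refl _, h2⟩
      | app h1 h3 => cases h1; exact ⟨_, _, rfl, h3, h2⟩

/-- The diamond property of parallel reduction. -/
theorem Bp_diamond (n : ℕ) : ∀ M N₁ N₂ : Term V, size M ≤ n → Bp M N₁ → Bp M N₂ →
    ∃ P, Bp N₁ P ∧ Bp N₂ P := by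
  induction n with
  | zero =>
      intro M N₁ N₂ hM
      exfalso
      cases M <;> simp [size] at hM
  | succ n IH =>
  intro M N₁ N₂ hM h1 h2
  cases h1 with
  | refl => exact ⟨N₂, h2, Bp.refl _⟩
  | @app s s' t t' hs ht =>
      have hss : size s ≤ n := by simp only [size] at hM; omega
      have hts : size t ≤ n := by simp only [size] at hM; omega
      cases h2 with
      | refl => exact ⟨_, Bp.refl _, Bp.app hs ht⟩
      | app hs2 ht2 =>
          obtain ⟨p, hp1, hp2⟩ := IH _ _ _ hss hs hs2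
          obtain ⟨q, hq1, hq2⟩ := IH _ _ _ hts ht ht2
          exact ⟨_, Bp.app hp1 hq1, Bp.app hp2 hq2⟩
      | rI hx =>
          cases hs
          obtain ⟨q, hq1, hq2⟩ := IH _ _ _ hts ht hx
          exact ⟨q, Bp.rI hq1, hq2⟩
      | @rK x x2 _ hx =>
          have hxs : size x ≤ n := by simp only [size] at hM; omega
          obtain ⟨x1, rfl, hx1⟩ := K_par hs
          obtain ⟨q, hq1, hq2⟩ := IH _ _ _ hxs hx1 hx
          exact ⟨q, Bp.rK hq1, hq2⟩
      | @rS x x2 y y2 z z2 hx hy hz =>
          have hxs : size x ≤ n := by simp only [size] at hM; omega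
          have hys : size y ≤ n := by simp only [size] at hM; omega
          obtain ⟨x1, y1, rfl, hx1, hy1⟩ := S_par hs
          obtain ⟨p, hp1, hp2⟩ := IH _ _ _ hxs hx1 hx
          obtain ⟨q, hq1, hq2⟩ := IH _ _ _ hys hy1 hy
          obtain ⟨r, hr1, hr2⟩ := IH _ _ _ hts ht hz
          exact ⟨_, Bp.rS hp1 hq1 hr1, Bp.app (Bp.app hp2 hr2) (Bp.app hq2 hr2)⟩
      | @r1 x x2 y hx =>
          have hxs : size x ≤ n := by simp only [size] at hM; omega
          cases hs
          obtain ⟨x1, y1, rfl, hx1, hy1⟩ := pair_par ht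
          obtain ⟨q, hq1, hq2⟩ := IH _ _ _ hxs hx1 hx
          exact ⟨q, Bp.r1 hq1, hq2⟩
      | @r2 x y y2 hy =>
          have hys : size y ≤ n := by simp only [size] at hM; omega
          cases hs
          obtain ⟨x1, y1, rfl, hx1, hy1⟩ := pair_par ht
          obtain ⟨q, hq1, hq2⟩ := IH _ _ _ hys hy1 hy
          exact ⟨q, Bp.r2 hq1, hq2⟩
      | @rF u X Y v v2 w w2 hT hv hw =>
          have hvs : size v ≤ n := by have := hT.size_le; omega
          obtain ⟨v1, hT1, hv1⟩ := Tr_par hT hs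
          obtain ⟨X1, Y1, rfl, _, _⟩ := pair_par hs
          obtain ⟨p, hp1, hp2⟩ := IH _ _ _ hvs hv1 hv
          obtain ⟨q, hq1, hq2⟩ := IH _ _ _ hts ht hw
          exact ⟨_, Bp.rF hT1 hp1 hq1, Bp.app hp2 hq2⟩
  | @rI x x' hx =>
      have hxs : size x ≤ n := by simp only [size] at hM; omega
      cases h2 with
      | refl => exact ⟨_, Bp.refl _, Bp.rI hx⟩
      | app hs ht =>
          cases hs
          obtain ⟨q, hq1, hq2⟩ := IH _ _ _ hxs hx ht
          exact ⟨q, hq1, Bp.rI hq2⟩
      | rI h => exact IH _ _ _ hxs hx h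
  | @rK x x' y hx =>
      have hxs : size x ≤ n := by simp only [size] at hM; omega
      cases h2 with
      | refl => exact ⟨_, Bp.refl _, Bp.rK hx⟩
      | app hs ht =>
          obtain ⟨x1, rfl, hx1⟩ := K_par hs
          obtain ⟨q, hq1, hq2⟩ := IH _ _ _ hxs hx hx1
          exact ⟨q, hq1, Bp.rK hq2⟩
      | rK h => exact IH _ _ _ hxs hx h
  | @rS x x' y y' z z' hx hy hz =>
      have hxs : size x ≤ n := by simp only [size] at hM; omega
      have hys : size y ≤ n := by simp only [size] at hM; omega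
      have hzs : size z ≤ n := by simp only [size] at hM; omega
      cases h2 with
      | refl => exact ⟨_, Bp.refl _, Bp.rS hx hy hz⟩
      | app hs ht =>
          obtain ⟨x1, y1, rfl, hx1, hy1⟩ := S_par hs
          obtain ⟨p, hp1, hp2⟩ := IH _ _ _ hxs hx hx1
          obtain ⟨q, hq1, hq2⟩ := IH _ _ _ hys hy hy1
          obtain ⟨r, hr1, hr2⟩ := IH _ _ _ hzs hz ht
          exact ⟨_, Bp.app (Bp.app hp1 hr1) (Bp.app hq1 hr1), Bp.rS hp2 hq2 hr2⟩
      | rS h1 h2 h3 =>
          obtain ⟨p, hp1, hp2⟩ := IH _ _ _ hxs hx h1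
          obtain ⟨q, hq1, hq2⟩ := IH _ _ _ hys hy h2
          obtain ⟨r, hr1, hr2⟩ := IH _ _ _ hzs hz h3
          exact ⟨_, Bp.app (Bp.app hp1 hr1) (Bp.app hq1 hr1),
            Bp.app (Bp.app hp2 hr2) (Bp.app hq2 hr2)⟩
  | @r1 x x' y hx =>
      have hxs : size x ≤ n := by simp only [size] at hM; omega
      cases h2 with
      | refl => exact ⟨_, Bp.refl _, Bp.r1 hx⟩
      | app hs ht =>
          cases hs
          obtain ⟨x1, y1, rfl, hx1, hy1⟩ := pair_par ht
          obtain ⟨q, hq1, hq2⟩ := IH _ _ _ hxs hx hx1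
          exact ⟨q, hq1, Bp.r1 hq2⟩
      | r1 h => exact IH _ _ _ hxs hx h
  | @r2 x y y' hy =>
      have hys : size y ≤ n := by simp only [size] at hM; omega
      cases h2 with
      | refl => exact ⟨_, Bp.refl _, Bp.r2 hy⟩
      | app hs ht =>
          cases hs
          obtain ⟨x1, y1, rfl, hx1, hy1⟩ := pair_par ht
          obtain ⟨q, hq1, hq2⟩ := IH _ _ _ hys hy hy1
          exact ⟨q, hq1, Bp.r2 hq2⟩
      | r2 h => exact IH _ _ _ hys hy h
  | @rF u X Y v v' w w' hT hv hw =>
      have hvs : size v ≤ n := by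
        have := hT.size_le; simp only [size] at hM this; omega
      have hws : size w ≤ n := by simp only [size] at hM; omega
      cases h2 with
      | refl => exact ⟨_, Bp.refl _, Bp.rF hT hv hw⟩
      | app hs ht =>
          obtain ⟨v1, hT1, hv1⟩ := Tr_par hT hs
          obtain ⟨X1, Y1, rfl, _, _⟩ := pair_par hs
          obtain ⟨p, hp1, hp2⟩ := IH _ _ _ hvs hv hv1
          obtain ⟨q, hq1, hq2⟩ := IH _ _ _ hws hw ht
          exact ⟨_, Bp.app hp1 hq1, Bp.rF hT1 hp2 hq2⟩
      | rF hT2 hv2 hw2 =>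
          have := Tr_unique hT hT2
          subst this
          obtain ⟨p, hp1, hp2⟩ := IH _ _ _ hvs hv hv2
          obtain ⟨q, hq1, hq2⟩ := IH _ _ _ hws hw hw2
          exact ⟨_, Bp.app hp1 hq1, Bp.app hp2 hq2⟩

theorem BS_iff {s t : Term V} : ReflTransGen Bp s t ↔ BS s t := by
  constructor
  · intro h
    induction h with
    | refl => exact ReflTransGen.refl
    | tail _ h ih => exact ih.trans h.toBS
  · intro h
    induction h with
    | refl => exact ReflTransGen.refl
    | tail _ h ih => exact ih.tail h.toBp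

theorem BS_confluent {M N₁ N₂ : Term V} (h1 : BS M N₁) (h2 : BS M N₂) :
    ∃ P, BS N₁ P ∧ BS N₂ P := by
  obtain ⟨P, hP1, hP2⟩ := church_rosser (r := (Bp : Term V → Term V → Prop))
    (fun a _ c hb hc =>
      let ⟨d, h, h'⟩ := Bp_diamond (size a) a _ c le_rfl hb hc
      ⟨d, ReflGen.single h, ReflTransGen.single h'⟩) (BS_iff.2 h1) (BS_iff.2 h2)
  exact ⟨P, BS_iff.1 hP1, BS_iff.1 hP2⟩

/-- Convertibility in the auxiliary system (in joined form). -/
def Cv (s t : Term V) : Prop := ∃ c, BS s c ∧ BS t c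

theorem Cv.refl (s : Term V) : Cv s s := ⟨s, ReflTransGen.refl, ReflTransGen.refl⟩

theorem Cv.symm {s t : Term V} (h : Cv s t) : Cv t s := by
  obtain ⟨c, h1, h2⟩ := h; exact ⟨c, h2, h1⟩

theorem Cv.trans {s t u : Term V} (h : Cv s t) (h' : Cv t u) : Cv s u := by
  obtain ⟨c, h1, h2⟩ := h
  obtain ⟨d, h3, h4⟩ := h'
  obtain ⟨e, h5, h6⟩ := BS_confluent h2 h3
  exact ⟨e, h1.trans h5, h4.trans h6⟩

theorem Cv.ap {s s' t t' : Term V} (h1 : Cv s s') (h2 : Cv t t') :
    Cv (app s t) (app s' t') := by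
  obtain ⟨c, hc1, hc2⟩ := h1
  obtain ⟨d, hd1, hd2⟩ := h2
  exact ⟨_, BS.ap hc1 hd1, BS.ap hc2 hd2⟩

theorem Cv.of {s t : Term V} (h : BS s t) : Cv s t := ⟨t, h, ReflTransGen.refl⟩

theorem Cv.of1 {s t : Term V} (h : B s t) : Cv s t := Cv.of (ReflTransGen.single h)

theorem Cv.toE {s t : Term V} (h : Cv s t) : E s t := by
  obtain ⟨c, h1, h2⟩ := h; exact (BS.toE h1).trans (BS.toE h2).symm

/-- Reducible to a pair in the auxiliary system. -/
def PF (t : Term V) : Prop := ∃ a b, BS t (app (app D a) b)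

theorem pair_BS {X Y N : Term V} (h : BS (app (app D X) Y) N) :
    ∃ X' Y', N = app (app D X') Y' ∧ BS X X' ∧ BS Y Y' := by
  induction h with
  | refl => exact ⟨X, Y, rfl, ReflTransGen.refl, ReflTransGen.refl⟩
  | tail _ h ih =>
      obtain ⟨X', Y', rfl, h1, h2⟩ := ih
      obtain ⟨X'', Y'', rfl, h3, h4⟩ := pair_par h.toBp
      exact ⟨_, _, rfl, h1.trans h3.toBS, h2.trans h4.toBS⟩

theorem PF.pair (X Y : Term V) : PF (app (app D X) Y) := ⟨X, Y, ReflTransGen.refl⟩

theorem PF.back {s t : Term V} (h : BS s t) (ht : PF t) : PF s := by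
  obtain ⟨a, b, hab⟩ := ht; exact ⟨a, b, h.trans hab⟩

theorem PF.fwd {s t : Term V} (h : BS s t) (hs : PF s) : PF t := by
  obtain ⟨a, b, hab⟩ := hs
  obtain ⟨P, h1, h2⟩ := BS_confluent h hab
  obtain ⟨X', Y', rfl, _, _⟩ := pair_BS h2
  exact ⟨X', Y', h1⟩

theorem PF.cv {s t : Term V} (h : Cv s t) (hs : PF s) : PF t := by
  obtain ⟨c, h1, h2⟩ := h
  exact PF.back h2 (PF.fwd h1 hs)

theorem dl_PF {s : Term V} (hs : PF s) : Cv (dl s s) s := by
  obtain ⟨a, b, hab⟩ := hs
  refine ⟨app (app D a) b, ?_, hab⟩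
  have h1 : BS (app D1 s) a := (BS.rgt D1 hab).tail (B.r1 _ _)
  have h2 : BS (app D2 s) b := (BS.rgt D2 hab).tail (B.r2 _ _)
  exact BS.ap (BS.rgt D h1) h2

/-! ### Expansions -/

/-- Disjoint parallel expansion of subterms that are not reducible to a pair. -/
inductive Ex : Term V → Term V → Prop
  | refl (s) : Ex s s
  | app {s s' t t'} : Ex s s' → Ex t t' → Ex (Term.app s t) (Term.app s' t')
  | root {s} : ¬ PF s → Ex s (dl s s)

theorem Ex.toE {s t : Term V} (h : Ex s t) : E s t := by
  induction h with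
  | refl s => exact E.refl s
  | app _ _ ih1 ih2 => exact E.congr ih1 ih2
  | root _ => exact (E.axD _).symm

theorem Ex.dl {s t : Term V} (h : Ex s t) : Ex (dl s s) (dl t t) :=
  Ex.app (Ex.app (Ex.refl _) (Ex.app (Ex.refl _) h)) (Ex.app (Ex.refl _) h)

theorem Cv.dl {s t : Term V} (h : Cv s t) : Cv (dl s s) (dl t t) :=
  Cv.ap (Cv.ap (Cv.refl _) (Cv.ap (Cv.refl _) h)) (Cv.ap (Cv.refl _) h)

theorem Tr_dl {γ : List Bool} {v : Term V} (hv : Act v) :
    Tr v γ (dl (Dp γ v) (Dp γ v)) v :=
  Tr.node γ _ _ v v (Tr.leaf (true :: γ) v hv (E.refl _)) (Tr.leaf (false :: γ) v hv (E.refl _))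

theorem Tr_Cv {u Z v : Term V} (w : Term V) (h : Tr u [] Z v) : Cv (app Z w) (app v w) := by
  generalize hγ : ([] : List Bool) = γ at h
  cases h with
  | leaf _ _ h1 h2 => subst hγ; exact Cv.refl _
  | node _ X Y _ v' h1 h2 => subst hγ; exact Cv.of1 (B.rF u _ _ _ _ (Tr.node _ _ _ _ _ h1 h2))

theorem F_dl {v : Term V} (hv : Act v) (w : Term V) : Cv (app (dl v v) w) (app v w) :=
  Tr_Cv w (Tr_dl (γ := []) hv)

theorem U_atom {c A : Term V} (hc : Act c) (hna : ∀ s t, c ≠ app s t) (h : Ex c A) (w : Term V) :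
    Cv (app A w) (app c w) := by
  cases h with
  | refl => exact Cv.refl _
  | app _ _ => exact (hna _ _ rfl).elim
  | root _ => exact F_dl hc w

theorem U_one {c x A : Term V} (hc : Act c) (hna : ∀ s t, c ≠ app s t)
    (h : Ex (app c x) A) : ∃ x', Ex x x' ∧
      (Cv A (app c x') ∨ (A = dl (app c x) (app c x) ∧ x' = x)) := by
  cases h with
  | refl => exact ⟨x, Ex.refl _, Or.inl (Cv.refl _)⟩
  | app h1 h2 => exact ⟨_, h2, Or.inl (U_atom hc hna h1 _)⟩
  | root _ => exact ⟨x, Ex.refl _, Or.inr ⟨rfl, rfl⟩⟩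

theorem U_one' {c x A : Term V} (hc : Act c) (hna : ∀ s t, c ≠ app s t) (hcx : Act (app c x))
    (h : Ex (app c x) A) : ∃ x', Ex x x' ∧ ∀ w, Cv (app A w) (app (app c x') w) := by
  obtain ⟨x', hx, h | ⟨rfl, rfl⟩⟩ := U_one hc hna h
  · exact ⟨x', hx, fun w => Cv.ap h (Cv.refl _)⟩
  · exact ⟨x', hx, fun w => F_dl hcx w⟩

theorem U_two {x y A : Term V} (h : Ex (app (app S x) y) A) : ∃ x' y', Ex x x' ∧ Ex y y' ∧
      (Cv A (app (app S x') y') ∨
        (A = dl (app (app S x) y) (app (app S x) y) ∧ x' = x ∧ y' = y)) := by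
  cases h with
  | refl => exact ⟨x, y, Ex.refl _, Ex.refl _, Or.inl (Cv.refl _)⟩
  | app h1 h2 =>
      obtain ⟨x', hx, h⟩ := U_one' Act.S (by intro s t h; cases h) (Act.S1 x) h1
      exact ⟨x', _, hx, h2, Or.inl (h _)⟩
  | root _ => exact ⟨x, y, Ex.refl _, Ex.refl _, Or.inr ⟨rfl, rfl, rfl⟩⟩

theorem U_two' {x y A : Term V} (h : Ex (app (app S x) y) A) : ∃ x' y', Ex x x' ∧ Ex y y' ∧
      ∀ w, Cv (app A w) (app (app (app S x') y') w) := by
  obtain ⟨x', y', hx, hy, h | ⟨rfl, rfl, rfl⟩⟩ := U_two h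
  · exact ⟨x', y', hx, hy, fun w => Cv.ap h (Cv.refl _)⟩
  · exact ⟨x', y', hx, hy, fun w => F_dl (Act.S2 _ _) w⟩

theorem UA {v A : Term V} (hv : Act v) (h : Ex v A) :
    (∃ v', Act v' ∧ Ex v v' ∧ Cv A v') ∨ A = dl v v := by
  have key1 : ∀ c x : Term V, Act c → (∀ s t, c ≠ app s t) → (∀ z, Act (app c z)) →
      Ex (app c x) A →
      (∃ v', Act v' ∧ Ex (app c x) v' ∧ Cv A v') ∨ A = dl (app c x) (app c x) := by
    intro c x hc hna hcz h
    obtain ⟨x', hx, h | ⟨h, _⟩⟩ := U_one hc hna h
    · exact Or.inl ⟨_, hcz x', Ex.app (Ex.refl _) hx, h⟩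
    · exact Or.inr h
  cases hv with
  | I =>
      cases h with
      | refl => exact Or.inl ⟨_, Act.I, Ex.refl _, Cv.refl _⟩
      | root _ => exact Or.inr rfl
  | K =>
      cases h with
      | refl => exact Or.inl ⟨_, Act.K, Ex.refl _, Cv.refl _⟩
      | root _ => exact Or.inr rfl
  | K1 a => exact key1 _ _ Act.K (by intro s t h; cases h) Act.K1 h
  | S =>
      cases h with
      | refl => exact Or.inl ⟨_, Act.S, Ex.refl _, Cv.refl _⟩
      | root _ => exact Or.inr rfl
  | S1 a => exact key1 _ _ Act.S (by intro s t h; cases h) Act.S1 h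
  | S2 a b =>
      obtain ⟨x', y', hx, hy, h | ⟨h, _⟩⟩ := U_two h
      · exact Or.inl ⟨_, Act.S2 x' y', Ex.app (Ex.app (Ex.refl _) hx) hy, h⟩
      · exact Or.inr h
  | D =>
      cases h with
      | refl => exact Or.inl ⟨_, Act.D, Ex.refl _, Cv.refl _⟩
      | root _ => exact Or.inr rfl
  | Da a => exact key1 _ _ Act.D (by intro s t h; cases h) Act.Da h
  | D1 =>
      cases h with
      | refl => exact Or.inl ⟨_, Act.D1, Ex.refl _, Cv.refl _⟩
      | root _ => exact Or.inr rfl
  | D2 =>
      cases h with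
      | refl => exact Or.inl ⟨_, Act.D2, Ex.refl _, Cv.refl _⟩
      | root _ => exact Or.inr rfl

theorem act_pr (i : Bool) : Act (pr i : Term V) := by
  cases i
  · exact Act.D2
  · exact Act.D1

theorem pr_na (i : Bool) (s t : Term V) : (pr i : Term V) ≠ app s t := by
  cases i <;> simp [pr]

/-- Projecting a pair. -/
theorem pr_pair (i : Bool) (X Y : Term V) :
    B (app (pr i) (app (app D X) Y)) (if i then X else Y) := by
  cases i
  · exact B.r2 _ _
  · exact B.r1 _ _

theorem pr_dl (i : Bool) (U W : Term V) (h : U = W) :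
    B (app (pr i) (dl U W)) (app (pr i) U) := by
  subst h
  cases i
  · exact B.r2 _ _
  · exact B.r1 _ _

theorem leafE {v : Term V} (hv : Act v) (γ : List Bool) : ∀ {X' : Term V}, Ex (Dp γ v) X' →
    (∃ v', Act v' ∧ Ex v v' ∧ Cv X' (Dp γ v')) ∨ X' = dl (Dp γ v) (Dp γ v) := by
  induction γ with
  | nil => intro X' h; exact UA hv h
  | cons i γ ih =>
      intro X' h
      simp only [Dp] at h ⊢
      cases h with
      | refl => exact Or.inl ⟨v, hv, Ex.refl _, Cv.refl _⟩
      | root _ => exact Or.inr rfl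
      | app h1 h2 =>
          left
          have h3 := fun w => U_atom (act_pr i) (pr_na i) h1 w
          rcases ih h2 with ⟨v', h4, h5, h6⟩ | h4
          · exact ⟨v', h4, h5, (h3 _).trans (Cv.ap (Cv.refl _) h6)⟩
          · subst h4
            exact ⟨v, hv, Ex.refl _, (h3 _).trans (Cv.of1 (pr_dl i _ _ rfl))⟩

theorem pairE {X Y Q : Term V} (h : Ex (app (app D X) Y) Q) :
    ∃ X' Y', Ex X X' ∧ Ex Y Y' ∧ Cv Q (app (app D X') Y') := by
  cases h with
  | refl => exact ⟨_, _, Ex.refl _, Ex.refl _, Cv.refl _⟩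
  | root h => exact (h (PF.pair _ _)).elim
  | app h1 h2 =>
      obtain ⟨X', hX, h⟩ := U_one' Act.D (by intro s t h; cases h) (Act.Da X) h1
      exact ⟨X', _, hX, h2, h _⟩

theorem TE {u : Term V} {γ : List Bool} {X v : Term V} (h : Tr u γ X v) :
    ∀ {X' : Term V}, Ex X X' → ∃ Z v', Cv X' Z ∧ Tr u γ Z v' ∧ Ex v v' := by
  induction h with
  | leaf γ v hv hE =>
      intro X' h
      rcases leafE hv γ h with ⟨v', h1, h2, h3⟩ | h1
      · exact ⟨_, v', h3, Tr.leaf _ _ h1 (h2.toE.symm.trans hE), h2⟩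
      · subst h1
        refine ⟨_, v, Cv.refl _, ?_, Ex.refl _⟩
        exact Tr.node γ _ _ v v (Tr.leaf (true :: γ) v hv hE) (Tr.leaf (false :: γ) v hv hE)
  | node γ X Y v v' _ _ ih1 ih2 =>
      intro N h
      obtain ⟨X', Y', hX, hY, hN⟩ := pairE h
      obtain ⟨Z1, v1, h1, h2, h3⟩ := ih1 hX
      obtain ⟨Z2, v2, h4, h5, h6⟩ := ih2 hY
      exact ⟨_, v1, hN.trans (Cv.ap (Cv.ap (Cv.refl _) h1) h4), Tr.node _ _ _ _ _ h2 h5, h3⟩

theorem V3root {M N : Term V} (h : B M N) (hM : ¬ PF M) :
    ∃ N', Ex N N' ∧ Cv N' (dl M M) :=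
  ⟨dl N N, Ex.root (fun hN => hM (PF.back (ReflTransGen.single h) hN)), (Cv.of1 h).symm.dl⟩

/-- One step of the auxiliary system commutes with expansion, modulo convertibility. -/
theorem V3 {M N₁ : Term V} (h : B M N₁) :
    ∀ {N₂ : Term V}, Ex M N₂ → ∃ N', Ex N₁ N' ∧ Cv N' N₂ := by
  induction h with
  | rI x =>
      intro N₂ h
      cases h with
      | refl => exact ⟨_, Ex.refl _, (Cv.of1 (B.rI x)).symm⟩
      | root h => exact V3root (B.rI x) h
      | app h1 h2 =>
          exact ⟨_, h2, ((U_atom Act.I (by intro s t h; cases h) h1 _).trans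
            (Cv.of1 (B.rI _))).symm⟩
  | rK x y =>
      intro N₂ h
      cases h with
      | refl => exact ⟨_, Ex.refl _, (Cv.of1 (B.rK x y)).symm⟩
      | root h => exact V3root (B.rK x y) h
      | app h1 h2 =>
          obtain ⟨x', hx, h3⟩ := U_one' Act.K (by intro s t h; cases h) (Act.K1 x) h1
          exact ⟨x', hx, ((h3 _).trans (Cv.of1 (B.rK _ _))).symm⟩
  | rS x y z =>
      intro N₂ h
      cases h with
      | refl => exact ⟨_, Ex.refl _, (Cv.of1 (B.rS x y z)).symm⟩
      | root h => exact V3root (B.rS x y z) h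
      | app h1 h2 =>
          obtain ⟨x', y', hx, hy, h3⟩ := U_two' h1
          exact ⟨_, Ex.app (Ex.app hx h2) (Ex.app hy h2),
            ((h3 _).trans (Cv.of1 (B.rS _ _ _))).symm⟩
  | r1 x y =>
      intro N₂ h
      cases h with
      | refl => exact ⟨_, Ex.refl _, (Cv.of1 (B.r1 x y)).symm⟩
      | root h => exact V3root (B.r1 x y) h
      | app h1 h2 =>
          obtain ⟨x', y', hx, hy, h3⟩ := pairE h2
          exact ⟨x', hx, ((U_atom Act.D1 (by intro s t h; cases h) h1 _).trans
            ((Cv.ap (Cv.refl _) h3).trans (Cv.of1 (B.r1 _ _)))).symm⟩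
  | r2 x y =>
      intro N₂ h
      cases h with
      | refl => exact ⟨_, Ex.refl _, (Cv.of1 (B.r2 x y)).symm⟩
      | root h => exact V3root (B.r2 x y) h
      | app h1 h2 =>
          obtain ⟨x', y', hx, hy, h3⟩ := pairE h2
          exact ⟨y', hy, ((U_atom Act.D2 (by intro s t h; cases h) h1 _).trans
            ((Cv.ap (Cv.refl _) h3).trans (Cv.of1 (B.r2 _ _)))).symm⟩
  | rF u X Y v w hT =>
      intro N₂ h
      cases h with
      | refl => exact ⟨_, Ex.refl _, (Cv.of1 (B.rF u X Y v w hT)).symm⟩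
      | root h => exact V3root (B.rF u X Y v w hT) h
      | app h1 h2 =>
          obtain ⟨Z, v', h3, h4, h5⟩ := TE hT h1
          exact ⟨_, Ex.app h5 h2, ((Cv.ap h3 (Cv.refl _)).trans (Tr_Cv _ h4)).symm⟩
  | @left s s' t hs ih =>
      intro N₂ h
      cases h with
      | refl => exact ⟨_, Ex.refl _, (Cv.of1 (B.left t hs)).symm⟩
      | root h => exact V3root (B.left t hs) h
      | app h1 h2 =>
          obtain ⟨a, ha, ha'⟩ := ih h1
          exact ⟨_, Ex.app ha h2, Cv.ap ha' (Cv.refl _)⟩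
  | @right s t t' ht ih =>
      intro N₂ h
      cases h with
      | refl => exact ⟨_, Ex.refl _, (Cv.of1 (B.right s ht)).symm⟩
      | root h => exact V3root (B.right s ht) h
      | app h1 h2 =>
          obtain ⟨a, ha, ha'⟩ := ih h2
          exact ⟨_, Ex.app h1 ha, Cv.ap (Cv.refl _) ha'⟩

theorem strip {M N₁ : Term V} (h : BS M N₁) :
    ∀ {N₂ : Term V}, Ex M N₂ → ∃ N', Ex N₁ N' ∧ Cv N' N₂ := by
  induction h with
  | refl => intro N₂ h; exact ⟨N₂, h, Cv.refl _⟩
  | tail _ h ih =>
      intro N₂ h2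
      obtain ⟨a, ha, ha'⟩ := ih h2
      obtain ⟨b, hb, hb'⟩ := V3 h ha
      exact ⟨b, hb, hb'.trans ha'⟩

theorem PF.ex {M N : Term V} (h : Ex M N) (hM : PF M) : PF N := by
  obtain ⟨a, b, hab⟩ := hM
  obtain ⟨N', h1, h2⟩ := strip hab h
  obtain ⟨a', b', _, _, h3⟩ := pairE h1
  exact PF.cv (h3.symm.trans h2) (PF.pair _ _)

theorem V2root {M N : Term V} (h : Ex M N) :
    ∃ Q₁ Q₂, Ex N Q₁ ∧ Ex (dl M M) Q₂ ∧ Cv Q₁ Q₂ := by
  by_cases hN : PF N
  · exact ⟨N, dl N N, Ex.refl _, h.dl, (dl_PF hN).symm⟩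
  · exact ⟨dl N N, dl N N, Ex.root hN, h.dl, Cv.refl _⟩

theorem V2 {M N₁ : Term V} (h : Ex M N₁) :
    ∀ {N₂ : Term V}, Ex M N₂ → ∃ Q₁ Q₂, Ex N₁ Q₁ ∧ Ex N₂ Q₂ ∧ Cv Q₁ Q₂ := by
  induction h with
  | refl s => intro N₂ h; exact ⟨N₂, N₂, h, Ex.refl _, Cv.refl _⟩
  | @app s s' t t' hs ht ih1 ih2 =>
      intro N₂ h
      cases h with
      | refl => exact ⟨_, _, Ex.refl _, Ex.app hs ht, Cv.refl _⟩
      | root _ => exact V2root (Ex.app hs ht)
      | app h1 h2 =>
          obtain ⟨a, b, ha, hb, hab⟩ := ih1 h1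
          obtain ⟨c, d, hc, hd, hcd⟩ := ih2 h2
          exact ⟨_, _, Ex.app ha hc, Ex.app hb hd, Cv.ap hab hcd⟩
  | @root s _ =>
      intro N₂ h
      obtain ⟨a, b, ha, hb, hab⟩ := V2root h
      exact ⟨b, a, hb, ha, hab.symm⟩

/-! ### Joinability of `E`-equal terms modulo expansions -/

/-- One expansion step modulo convertibility. -/
def Cl (M N : Term V) : Prop := ∃ M₀ N₀, Cv M M₀ ∧ Ex M₀ N₀ ∧ Cv N₀ N

theorem Cl.of_cv {M N : Term V} (h : Cv M N) : Cl M N := ⟨M, M, Cv.refl _, Ex.refl _, h⟩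

theorem Cl.lft {s s' : Term V} (t : Term V) (h : Cl s s') : Cl (app s t) (app s' t) := by
  obtain ⟨a, b, h1, h2, h3⟩ := h
  exact ⟨_, _, Cv.ap h1 (Cv.refl t), Ex.app h2 (Ex.refl t), Cv.ap h3 (Cv.refl t)⟩

theorem Cl.rgt (s : Term V) {t t' : Term V} (h : Cl t t') : Cl (app s t) (app s t') := by
  obtain ⟨a, b, h1, h2, h3⟩ := h
  exact ⟨_, _, Cv.ap (Cv.refl s) h1, Ex.app (Ex.refl s) h2, Cv.ap (Cv.refl s) h3⟩

theorem Cl.diamond {M N₁ N₂ : Term V} (h1 : Cl M N₁) (h2 : Cl M N₂) :
    ∃ Q, Cl N₁ Q ∧ Cl N₂ Q := by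
  obtain ⟨M1, N1', ha, hb, hc⟩ := h1
  obtain ⟨M2, N2', hd, he, hf⟩ := h2
  obtain ⟨c, hc1, hc2⟩ := ha.symm.trans hd
  obtain ⟨x, hx, hx'⟩ := strip hc1 hb
  obtain ⟨y, hy, hy'⟩ := strip hc2 he
  obtain ⟨Q1, Q2, h3, h4, h5⟩ := V2 hx hy
  exact ⟨Q1, ⟨x, Q1, (hx'.trans hc).symm, h3, Cv.refl _⟩,
    ⟨y, Q2, (hy'.trans hf).symm, h4, h5.symm⟩⟩

theorem Cls_confluent {M N₁ N₂ : Term V} (h1 : ReflTransGen Cl M N₁)
    (h2 : ReflTransGen Cl M N₂) : ∃ P, ReflTransGen Cl N₁ P ∧ ReflTransGen Cl N₂ P :=
  church_rosser (fun _ _ _ hb hc =>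
    let ⟨d, h, h'⟩ := Cl.diamond hb hc
    ⟨d, ReflGen.single h, ReflTransGen.single h'⟩) h1 h2

theorem Cls_lft {s s' : Term V} (t : Term V) (h : ReflTransGen Cl s s') :
    ReflTransGen Cl (app s t) (app s' t) := by
  induction h with
  | refl => exact ReflTransGen.refl
  | tail _ h ih => exact ih.tail (h.lft t)

theorem Cls_rgt (s : Term V) {t t' : Term V} (h : ReflTransGen Cl t t') :
    ReflTransGen Cl (app s t) (app s t') := by
  induction h with
  | refl => exact ReflTransGen.refl
  | tail _ h ih => exact ih.tail (h.rgt s)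

theorem E_join {s t : Term V} (h : E s t) :
    ∃ P, ReflTransGen Cl s P ∧ ReflTransGen Cl t P := by
  have key : ∀ {s t : Term V}, Cv s t → ∃ P, ReflTransGen Cl s P ∧ ReflTransGen Cl t P :=
    fun h => ⟨_, ReflTransGen.single (Cl.of_cv h), ReflTransGen.refl⟩
  induction h with
  | refl s => exact ⟨s, ReflTransGen.refl, ReflTransGen.refl⟩
  | symm _ ih => obtain ⟨p, h1, h2⟩ := ih; exact ⟨p, h2, h1⟩
  | trans _ _ ih1 ih2 =>
      obtain ⟨p, hp1, hp2⟩ := ih1
      obtain ⟨q, hq1, hq2⟩ := ih2
      obtain ⟨r, hr1, hr2⟩ := Cls_confluent hp2 hq1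
      exact ⟨r, hp1.trans hr1, hq2.trans hr2⟩
  | congr _ _ ih1 ih2 =>
      obtain ⟨p, hp1, hp2⟩ := ih1
      obtain ⟨q, hq1, hq2⟩ := ih2
      exact ⟨_, (Cls_lft _ hp1).trans (Cls_rgt _ hq1), (Cls_lft _ hp2).trans (Cls_rgt _ hq2)⟩
  | axI x => exact key (Cv.of1 (B.rI x))
  | axK x y => exact key (Cv.of1 (B.rK x y))
  | axS x y z => exact key (Cv.of1 (B.rS x y z))
  | ax1 x y => exact key (Cv.of1 (B.r1 x y))
  | ax2 x y => exact key (Cv.of1 (B.r2 x y))
  | axD x =>
      by_cases hx : PF x
      · exact key (dl_PF hx)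
      · exact ⟨_, ReflTransGen.refl,
          ReflTransGen.single ⟨x, dl x x, Cv.refl _, Ex.root hx, Cv.refl _⟩⟩

/-! ### Superpositions -/

/-- `Rep N W`: the term `W` arises from `N` by superpositions: a subterm `N` not reducible to a
pair may be represented by a pair `D X Y` where `X` represents a reduct of `D₁ N` and `Y`
represents a reduct of `D₂ N`. -/
inductive Rep : Term V → Term V → Prop
  | atom (c) (h : ∀ s t, c ≠ Term.app s t) : Rep c c
  | app {s s' t t'} : Rep s s' → Rep t t' → Rep (Term.app s t) (Term.app s' t')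
  | mark {N N1 N2 X Y} : ¬ PF N → BS N N1 → Rep (Term.app D1 N1) X → BS N N2 →
      Rep (Term.app D2 N2) Y → Rep N (Term.app (Term.app D X) Y)

theorem Rep.refl (t : Term V) : Rep t t := by
  induction t with
  | app s t ih1 ih2 => exact Rep.app ih1 ih2
  | _ => exact Rep.atom _ (by intro s t h; cases h)

theorem Rep.toE {N W : Term V} (h : Rep N W) : E N W := by
  induction h with
  | atom c _ => exact E.refl c
  | app _ _ ih1 ih2 => exact E.congr ih1 ih2
  | mark _ b1 _ b2 _ ih1 ih2 =>
      refine (E.axD _).symm.trans (E.congr (E.congr (E.refl _) ?_) ?_)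
      · exact (E.congr (E.refl _) (BS.toE b1)).trans ih1
      · exact (E.congr (E.refl _) (BS.toE b2)).trans ih2

/-- Reductions and expansions together. -/
abbrev Vs (s t : Term V) : Prop := ReflTransGen (fun a b => BS a b ∨ Ex a b) s t

theorem Vs.lft {s s' : Term V} (t : Term V) (h : Vs s s') : Vs (app s t) (app s' t) := by
  induction h with
  | refl => exact ReflTransGen.refl
  | tail _ h ih =>
      rcases h with h | h
      · exact ih.tail (Or.inl (BS.lft t h))
      · exact ih.tail (Or.inr (Ex.app h (Ex.refl t)))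

theorem Vs.rgt (s : Term V) {t t' : Term V} (h : Vs t t') : Vs (app s t) (app s t') := by
  induction h with
  | refl => exact ReflTransGen.refl
  | tail _ h ih =>
      rcases h with h | h
      · exact ih.tail (Or.inl (BS.rgt s h))
      · exact ih.tail (Or.inr (Ex.app (Ex.refl s) h))

theorem Vs.ap {s s' t t' : Term V} (h1 : Vs s s') (h2 : Vs t t') : Vs (app s t) (app s' t') :=
  (Vs.lft t h1).trans (Vs.rgt s' h2)

theorem Rep.toVs {N W : Term V} (h : Rep N W) : Vs N W := by
  induction h with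
  | atom c _ => exact ReflTransGen.refl
  | app _ _ ih1 ih2 => exact Vs.ap ih1 ih2
  | @mark N N1 N2 X Y hN b1 _ b2 _ ih1 ih2 =>
      have h1 : Vs N (dl N N) := ReflTransGen.single (Or.inr (Ex.root hN))
      have h2 : BS (dl N N) (Term.app (Term.app D (Term.app D1 N1)) (Term.app D2 N2)) :=
        BS.ap (BS.rgt _ (BS.rgt _ b1)) (BS.rgt _ b2)
      exact (h1.tail (Or.inl h2)).trans (Vs.ap (Vs.rgt _ ih1) ih2)

theorem PF.vs {N W : Term V} (h : Vs N W) (hN : PF N) : PF W := by
  induction h with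
  | refl => exact hN
  | tail _ h ih =>
      rcases h with h | h
      · exact PF.fwd h ih
      · exact PF.ex h ih

theorem PF.rep {N W : Term V} (h : Rep N W) (hN : PF N) : PF W := PF.vs h.toVs hN

theorem pr_inv1 {i : Bool} {N M : Term V} (hN : ¬ PF N) (h : B (app (pr i) N) M) :
    ∃ N', M = app (pr i) N' ∧ B N N' := by
  cases i with
  | true =>
      simp only [pr] at h ⊢
      cases h with
      | r1 x y => exact (hN (PF.pair _ _)).elim
      | left _ h => cases h
      | right _ h => exact ⟨_, rfl, h⟩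
  | false =>
      simp only [pr] at h ⊢
      cases h with
      | r2 x y => exact (hN (PF.pair _ _)).elim
      | left _ h => cases h
      | right _ h => exact ⟨_, rfl, h⟩

theorem pr_inv {i : Bool} {N M : Term V} (hN : ¬ PF N) (h : BS (app (pr i) N) M) :
    ∃ N', M = app (pr i) N' ∧ BS N N' := by
  induction h with
  | refl => exact ⟨N, rfl, ReflTransGen.refl⟩
  | tail _ h ih =>
      obtain ⟨N', rfl, h1⟩ := ih
      obtain ⟨N'', rfl, h2⟩ := pr_inv1 (fun hp => hN (PF.back h1 hp)) h
      exact ⟨N'', rfl, h1.tail h2⟩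

theorem Dp_npf {γ : List Bool} {N : Term V} (hN : ¬ PF N) : ¬ PF (Dp γ N) := by
  induction γ with
  | nil => exact hN
  | cons i γ ih =>
      rintro ⟨a, b, hab⟩
      obtain ⟨N', h, _⟩ := pr_inv ih hab
      cases i <;> simp [pr] at h

theorem Dp_inv {γ : List Bool} : ∀ {N M : Term V}, ¬ PF N → BS (Dp γ N) M →
    ∃ N', M = Dp γ N' ∧ BS N N' := by
  induction γ with
  | nil => intro N M _ h; exact ⟨M, rfl, h⟩
  | cons i γ ih =>
      intro N M hN h
      obtain ⟨N', rfl, h1⟩ := pr_inv (Dp_npf hN) h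
      obtain ⟨N'', rfl, h2⟩ := ih hN h1
      exact ⟨N'', rfl, h2⟩

theorem rep_atom {c M : Term V} (hna : ∀ s t, c ≠ app s t) (h : Rep M c) : M = c := by
  cases h with
  | atom _ _ => rfl
  | app _ _ => exact (hna _ _ rfl).elim
  | mark _ _ _ _ _ => exact (hna _ _ rfl).elim

theorem rep_D {x M : Term V} (h : Rep M (app D x)) : ∃ x0, M = app D x0 ∧ Rep x0 x := by
  cases h with
  | atom _ h => exact (h _ _ rfl).elim
  | app h1 h2 =>
      have := rep_atom (by intro s t h; cases h) h1
      subst this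
      exact ⟨_, rfl, h2⟩

theorem rep_K {x M : Term V} (h : Rep M (app K x)) : ∃ x0, M = app K x0 ∧ Rep x0 x := by
  cases h with
  | atom _ h => exact (h _ _ rfl).elim
  | app h1 h2 =>
      have := rep_atom (by intro s t h; cases h) h1
      subst this
      exact ⟨_, rfl, h2⟩

theorem rep_S {x M : Term V} (h : Rep M (app S x)) : ∃ x0, M = app S x0 ∧ Rep x0 x := by
  cases h with
  | atom _ h => exact (h _ _ rfl).elim
  | app h1 h2 =>
      have := rep_atom (by intro s t h; cases h) h1
      subst this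
      exact ⟨_, rfl, h2⟩

theorem rep_S2 {x y M : Term V} (h : Rep M (app (app S x) y)) :
    ∃ x0 y0, M = app (app S x0) y0 ∧ Rep x0 x ∧ Rep y0 y := by
  cases h with
  | atom _ h => exact (h _ _ rfl).elim
  | app h1 h2 =>
      obtain ⟨x0, rfl, h3⟩ := rep_S h1
      exact ⟨_, _, rfl, h3, h2⟩

theorem rep_pair {x y M : Term V} (h : Rep M (app (app D x) y)) :
    (∃ x0 y0, M = app (app D x0) y0 ∧ Rep x0 x ∧ Rep y0 y) ∨
    (¬ PF M ∧ ∃ N1 N2, BS M N1 ∧ Rep (app D1 N1) x ∧ BS M N2 ∧ Rep (app D2 N2) y) := by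
  cases h with
  | atom _ h => exact (h _ _ rfl).elim
  | app h1 h2 =>
      obtain ⟨x0, rfl, h3⟩ := rep_D h1
      exact Or.inl ⟨_, _, rfl, h3, h2⟩
  | mark h0 h1 h2 h3 h4 => exact Or.inr ⟨h0, _, _, h1, h2, h3, h4⟩

theorem act_rep {v M : Term V} (hv : Act v) (h : Rep M v) : Act M := by
  cases hv with
  | I => rw [rep_atom (by intro s t h; cases h) h]; exact Act.I
  | K => rw [rep_atom (by intro s t h; cases h) h]; exact Act.K
  | K1 a => obtain ⟨_, rfl, _⟩ := rep_K h; exact Act.K1 _
  | S => rw [rep_atom (by intro s t h; cases h) h]; exact Act.S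
  | S1 a => obtain ⟨_, rfl, _⟩ := rep_S h; exact Act.S1 _
  | S2 a b => obtain ⟨_, _, rfl, _, _⟩ := rep_S2 h; exact Act.S2 _ _
  | D => rw [rep_atom (by intro s t h; cases h) h]; exact Act.D
  | Da a => obtain ⟨_, rfl, _⟩ := rep_D h; exact Act.Da _
  | D1 => rw [rep_atom (by intro s t h; cases h) h]; exact Act.D1
  | D2 => rw [rep_atom (by intro s t h; cases h) h]; exact Act.D2

theorem rep_pr {i : Bool} {x M : Term V} (h : Rep M (app (pr i) x)) :
    ∃ x0, M = app (pr i) x0 ∧ Rep x0 x := by
  cases i with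
  | true =>
      simp only [pr] at h ⊢
      cases h with
      | atom _ h => exact (h _ _ rfl).elim
      | app h1 h2 =>
          have := rep_atom (by intro s t h; cases h) h1
          subst this
          exact ⟨_, rfl, h2⟩
  | false =>
      simp only [pr] at h ⊢
      cases h with
      | atom _ h => exact (h _ _ rfl).elim
      | app h1 h2 =>
          have := rep_atom (by intro s t h; cases h) h1
          subst this
          exact ⟨_, rfl, h2⟩

theorem leaf_rep {v : Term V} (hv : Act v) {γ : List Bool} : ∀ {M : Term V}, Rep M (Dp γ v) →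
    ∃ v0, M = Dp γ v0 ∧ Act v0 ∧ Rep v0 v := by
  induction γ with
  | nil => intro M h; exact ⟨M, rfl, act_rep hv h, h⟩
  | cons i γ ih =>
      intro M h
      obtain ⟨x0, rfl, h1⟩ := rep_pr h
      obtain ⟨v0, rfl, h2, h3⟩ := ih h1
      exact ⟨v0, rfl, h2, h3⟩

theorem Tr_pr_inv {u : Term V} {i : Bool} {γ : List Bool} {N v : Term V}
    (h : Tr u (i :: γ) (app (pr i) N) v) : N = Dp γ v ∧ Act v ∧ E v u := by
  generalize hγ : i :: γ = γ' at h
  generalize hX : app (pr i) N = X at h
  cases h with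
  | leaf _ _ h1 h2 =>
      subst hγ
      simp only [Dp, Term.app.injEq, true_and] at hX
      exact ⟨hX, h1, h2⟩
  | node _ X Y _ v' h1 h2 => cases i <;> simp [pr] at hX

theorem tree_rep {u : Term V} {γ : List Bool} {X v : Term V} (h : Tr u γ X v) :
    ∀ {M : Term V}, Rep M X → ∃ M' v0, BS M M' ∧ Tr u γ M' v0 ∧ Rep v0 v := by
  induction h with
  | leaf γ v hv hE =>
      intro M h
      obtain ⟨v0, rfl, h1, h2⟩ := leaf_rep hv h
      exact ⟨_, v0, ReflTransGen.refl, Tr.leaf _ _ h1 (h2.toE.trans hE), h2⟩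
  | node γ X Y v v' _ _ ih1 ih2 =>
      intro M h
      rcases rep_pair h with ⟨x0, y0, rfl, h1, h2⟩ | ⟨hM, N1, N2, b1, r1, b2, r2⟩
      · obtain ⟨M1, v1, c1, c2, c3⟩ := ih1 h1
        obtain ⟨M2, v2, d1, d2, d3⟩ := ih2 h2
        exact ⟨_, v1, BS.ap (BS.rgt _ c1) d1, Tr.node _ _ _ _ _ c2 d2, c3⟩
      · obtain ⟨M1, v1, c1, c2, c3⟩ := ih1 r1
        obtain ⟨N1', rfl, h3⟩ := pr_inv (i := true) (fun hp => hM (PF.back b1 hp)) c1
        obtain ⟨rfl, h4, h5⟩ := Tr_pr_inv c2
        exact ⟨_, v1, b1.trans h3, Tr.leaf _ _ h4 h5, c3⟩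

theorem Tr_BS {u Z v : Term V} (w : Term V) (h : Tr u [] Z v) : BS (app Z w) (app v w) := by
  generalize hγ : ([] : List Bool) = γ at h
  cases h with
  | leaf _ _ h1 h2 => subst hγ; exact ReflTransGen.refl
  | node _ X Y _ v' h1 h2 =>
      subst hγ
      exact ReflTransGen.single (B.rF u _ _ _ _ (Tr.node _ _ _ _ _ h1 h2))

theorem pair_B {X Y N : Term V} (h : B (app (app D X) Y) N) :
    (∃ X', N = app (app D X') Y ∧ B X X') ∨ (∃ Y', N = app (app D X) Y' ∧ B Y Y') := by
  cases h with
  | left _ h =>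
      cases h with
      | left _ h => cases h
      | right _ h => exact Or.inl ⟨_, rfl, h⟩
  | right _ h => exact Or.inr ⟨_, rfl, h⟩

/-- The simulation lemma. -/
theorem sim1 {N W : Term V} (h : Rep N W) : ∀ {W' : Term V}, B W W' →
    ∃ N', BS N N' ∧ Rep N' W' := by
  induction h with
  | atom c h =>
      intro W' hB
      cases hB <;> exact (h _ _ rfl).elim
  | @app s s' t t' hs ht ih1 ih2 =>
      intro W' hB
      cases hB with
      | rI x =>
          have := rep_atom (by intro s t h; cases h) hs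
          subst this
          exact ⟨t, ReflTransGen.single (B.rI _), ht⟩
      | rK x y =>
          obtain ⟨x0, rfl, h1⟩ := rep_K hs
          exact ⟨x0, ReflTransGen.single (B.rK _ _), h1⟩
      | rS x y z =>
          obtain ⟨x0, y0, rfl, h1, h2⟩ := rep_S2 hs
          exact ⟨_, ReflTransGen.single (B.rS _ _ _), Rep.app (Rep.app h1 ht) (Rep.app h2 ht)⟩
      | r1 x y =>
          have := rep_atom (by intro s t h; cases h) hs
          subst this
          rcases rep_pair ht with ⟨x0, y0, rfl, h1, h2⟩ | ⟨hM, N1, N2, b1, r1, b2, r2⟩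
          · exact ⟨x0, ReflTransGen.single (B.r1 _ _), h1⟩
          · exact ⟨_, BS.rgt _ b1, r1⟩
      | r2 x y =>
          have := rep_atom (by intro s t h; cases h) hs
          subst this
          rcases rep_pair ht with ⟨x0, y0, rfl, h1, h2⟩ | ⟨hM, N1, N2, b1, r1, b2, r2⟩
          · exact ⟨y0, ReflTransGen.single (B.r2 _ _), h2⟩
          · exact ⟨_, BS.rgt _ b2, r2⟩
      | rF u X Y v w hT =>
          obtain ⟨M', v0, h1, h2, h3⟩ := tree_rep hT hs
          exact ⟨_, (BS.lft _ h1).trans (Tr_BS _ h2), Rep.app h3 ht⟩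
      | left _ h =>
          obtain ⟨N', h1, h2⟩ := ih1 h
          exact ⟨_, BS.lft _ h1, Rep.app h2 ht⟩
      | right _ h =>
          obtain ⟨N', h1, h2⟩ := ih2 h
          exact ⟨_, BS.rgt _ h1, Rep.app hs h2⟩
  | @mark N N1 N2 X Y hN b1 r1 b2 r2 ih1 ih2 =>
      intro W' hB
      rcases pair_B hB with ⟨X', rfl, h⟩ | ⟨Y', rfl, h⟩
      · obtain ⟨M, h1, h2⟩ := ih1 h
        obtain ⟨N1', rfl, h3⟩ := pr_inv (i := true) (fun hp => hN (PF.back b1 hp)) h1
        exact ⟨N, ReflTransGen.refl, Rep.mark hN (b1.trans h3) h2 b2 r2⟩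
      · obtain ⟨M, h1, h2⟩ := ih2 h
        obtain ⟨N2', rfl, h3⟩ := pr_inv (i := false) (fun hp => hN (PF.back b2 hp)) h1
        exact ⟨N, ReflTransGen.refl, Rep.mark hN b1 r1 (b2.trans h3) h2⟩

theorem sim {N W W' : Term V} (h : Rep N W) (hB : BS W W') : ∃ N', BS N N' ∧ Rep N' W' := by
  induction hB with
  | refl => exact ⟨N, ReflTransGen.refl, h⟩
  | tail _ hb ih =>
      obtain ⟨N', h1, h2⟩ := ih
      obtain ⟨N'', h3, h4⟩ := sim1 h2 hb
      exact ⟨N'', h1.trans h3, h4⟩

/-- Expansions of represented terms. -/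
theorem exp_rep {N W : Term V} (h : Rep N W) : ∀ {W' : Term V}, Ex W W' →
    ∃ W'' N', Cv W' W'' ∧ BS N N' ∧ Rep N' W'' := by
  induction h with
  | atom c h =>
      intro W' hE
      cases hE with
      | refl => exact ⟨c, c, Cv.refl _, ReflTransGen.refl, Rep.atom c h⟩
      | app _ _ => exact (h _ _ rfl).elim
      | root hp =>
          exact ⟨_, c, Cv.refl _, ReflTransGen.refl,
            Rep.mark hp ReflTransGen.refl (Rep.refl _) ReflTransGen.refl (Rep.refl _)⟩
  | @app s s' t t' hs ht ih1 ih2 =>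
      intro W' hE
      cases hE with
      | refl => exact ⟨_, _, Cv.refl _, ReflTransGen.refl, Rep.app hs ht⟩
      | app h1 h2 =>
          obtain ⟨a, b, c1, c2, c3⟩ := ih1 h1
          obtain ⟨a', b', d1, d2, d3⟩ := ih2 h2
          exact ⟨_, _, Cv.ap c1 d1, BS.ap c2 d2, Rep.app c3 d3⟩
      | root hp =>
          have hR : Rep (app s t) (app s' t') := Rep.app hs ht
          exact ⟨_, _, Cv.refl _, ReflTransGen.refl,
            Rep.mark (fun h => hp (PF.rep hR h)) ReflTransGen.refl (Rep.app (Rep.refl _) hR)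
              ReflTransGen.refl (Rep.app (Rep.refl _) hR)⟩
  | @mark N N1 N2 X Y hN b1 r1 b2 r2 ih1 ih2 =>
      intro W' hE
      obtain ⟨X', Y', hX, hY, h1⟩ := pairE hE
      obtain ⟨X'', M1, c1, c2, c3⟩ := ih1 hX
      obtain ⟨Y'', M2, d1, d2, d3⟩ := ih2 hY
      obtain ⟨N1', rfl, h3⟩ := pr_inv (i := true) (fun hp => hN (PF.back b1 hp)) c2
      obtain ⟨N2', rfl, h4⟩ := pr_inv (i := false) (fun hp => hN (PF.back b2 hp)) d2
      exact ⟨_, N, h1.trans (Cv.ap (Cv.ap (Cv.refl _) c1) d1), ReflTransGen.refl,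
        Rep.mark hN (b1.trans h3) c3 (b2.trans h4) d3⟩

/-- `a` reduces to a term represented by a term convertible with `w`. -/
def Rs (a w : Term V) : Prop := ∃ n w', BS a n ∧ Rep n w' ∧ Cv w w'

theorem Rs.cl {a w w₂ : Term V} (h : Rs a w) (hc : Cl w w₂) : Rs a w₂ := by
  obtain ⟨n, w', h1, h2, h3⟩ := h
  obtain ⟨w0, w02, h4, h5, h6⟩ := hc
  obtain ⟨c, hc1, hc2⟩ := h4.symm.trans h3
  obtain ⟨n', h7, h8⟩ := sim h2 hc2
  obtain ⟨c', h9, h10⟩ := strip hc1 h5
  obtain ⟨c'', n'', h11, h12, h13⟩ := exp_rep h8 h9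
  exact ⟨n'', c'', (h1.trans h7).trans h12, h13, h6.symm.trans (h10.symm.trans h11)⟩

theorem Rs.cls {a w w₂ : Term V} (h : Rs a w) (hc : ReflTransGen Cl w w₂) : Rs a w₂ := by
  induction hc with
  | refl => exact h
  | tail _ hc ih => exact ih.cl hc

theorem E_rep {a b : Term V} (h : E a b) :
    ∃ n m c, BS a n ∧ BS b m ∧ Rep n c ∧ Rep m c := by
  obtain ⟨P, h1, h2⟩ := E_join h
  have ha : Rs a a := ⟨a, a, ReflTransGen.refl, Rep.refl a, Cv.refl a⟩
  have hb : Rs b b := ⟨b, b, ReflTransGen.refl, Rep.refl b, Cv.refl b⟩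
  obtain ⟨n, w1, h3, h4, h5⟩ := ha.cls h1
  obtain ⟨m, w2, h6, h7, h8⟩ := hb.cls h2
  obtain ⟨c, hc1, hc2⟩ := h5.symm.trans h8
  obtain ⟨n', h9, h10⟩ := sim h4 hc1
  obtain ⟨m', h11, h12⟩ := sim h7 hc2
  exact ⟨n', m', c, h3.trans h9, h6.trans h11, h10, h12⟩

/-! ### Joining two terms represented by the same term -/

theorem size_pos (t : Term V) : 0 < size t := by
  cases t <;> simp [size]

theorem SC (k : ℕ) : ∀ (X : Term V), size X ≤ k → ∀ (i : Bool) (δ γ : List Bool) (N x : Term V),
    ¬ PF N → ¬ PF x → Rep (Dp (i :: δ) (Dp γ N)) X → Rep (Dp (i :: δ) x) X →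
    ∃ W N' x', size W < size X ∧ BS N N' ∧ BS x x' ∧ Rep (Dp γ N') W ∧ Rep x' W := by
  induction k with
  | zero => intro X hX; have := size_pos X; omega
  | succ k IH =>
  intro X hX i δ γ N x hN hx h1 h2
  simp only [Dp] at h1 h2
  cases h1 with
  | atom _ h => exact (h _ _ rfl).elim
  | @app _ X1 _ X2 ha hb =>
      cases h2 with
      | atom _ h => exact (h _ _ rfl).elim
      | app hc hd =>
          cases δ with
          | nil =>
              exact ⟨X2, N, x, by simp only [size]; omega, ReflTransGen.refl,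
                ReflTransGen.refl, hb, hd⟩
          | cons j δ =>
              obtain ⟨W, N', x', e1, e2, e3, e4, e5⟩ :=
                IH X2 (by simp only [size] at hX; omega) j δ γ N x hN hx hb hd
              exact ⟨W, N', x', by simp only [size]; omega, e2, e3, e4, e5⟩
      | mark _ _ _ _ _ =>
          obtain ⟨_, h, _⟩ := rep_D ha
          cases i <;> simp [pr] at h
  | @mark _ N1 N2 X' Y' hP b1 r1 b2 r2 =>
      rcases rep_pair h2 with ⟨x0, y0, h, _, _⟩ | ⟨_, N3, N4, b3, r3, b4, r4⟩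
      · cases i <;> simp [pr] at h
      · obtain ⟨P1, rfl, c1⟩ := Dp_inv (γ := i :: δ) (Dp_npf hN) b1
        obtain ⟨P2, rfl, c2⟩ := Dp_inv hN c1
        obtain ⟨P3, rfl, c3⟩ := Dp_inv (γ := i :: δ) hx b3
        obtain ⟨W, N', x', e1, e2, e3, e4, e5⟩ :=
          IH X' (by simp only [size] at hX; omega) true (i :: δ) γ P2 P3
            (fun h => hN (PF.back c2 h)) (fun h => hx (PF.back c3 h)) r1 r3
        exact ⟨W, N', x', by simp only [size]; omega, c2.trans e2, c3.trans e3, e4, e5⟩

theorem RS_pr {i : Bool} {c : Term V} (h : RS (pr i) c) : c = pr i := by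
  induction h with
  | refl => rfl
  | tail _ h ih =>
      subst ih
      cases i with
      | true => simp only [pr] at h; cases h
      | false => simp only [pr] at h; cases h

theorem JQ (n : ℕ) :
    (∀ W a b : Term V, size W ≤ n → Rep a W → Rep b W → ∃ c, RS a c ∧ RS b c) ∧
    (∀ (W : Term V) (i : Bool) (γ : List Bool) (N x : Term V), size W ≤ n → ¬ PF N →
      Rep (Dp (i :: γ) N) W → Rep x W →
      ∃ W' N' p, size W' < size W ∧ BS N N' ∧ Rep (Dp γ N') W' ∧ Rep p W' ∧
        RS x (app (pr i) p)) := by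
  induction n with
  | zero =>
      constructor
      · intro W a b hW; have := size_pos W; omega
      · intro W i γ N x hW; have := size_pos W; omega
  | succ n IH =>
  obtain ⟨IHJ, IHQ⟩ := IH
  constructor
  · -- joinability
    have core : ∀ (m x y X Y m1 m2 : Term V), size X ≤ n → size Y ≤ n → ¬ PF m → BS m m1 →
        Rep (app D1 m1) X → BS m m2 → Rep (app D2 m2) Y → Rep x X → Rep y Y →
        ∃ c, RS m c ∧ RS (app (app D x) y) c := by
      intro m x y X Y m1 m2 hX hY hm b1 r1 b2 r2 hx hy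
      obtain ⟨W1, m1', p, e1, e2, e3, e4, e5⟩ :=
        IHQ X true [] m1 x hX (fun h => hm (PF.back b1 h)) r1 hx
      obtain ⟨W2, m2', q, f1, f2, f3, f4, f5⟩ :=
        IHQ Y false [] m2 y hY (fun h => hm (PF.back b2 h)) r2 hy
      have hpm : E p m :=
        (e4.toE.trans e3.toE.symm).trans ((BS.toE e2).symm.trans (BS.toE b1).symm)
      have hqm : E q m :=
        (f4.toE.trans f3.toE.symm).trans ((BS.toE f2).symm.trans (BS.toE b2).symm)
      obtain ⟨c, hc1, hc2⟩ := IHJ W1 m1' p (by omega) e3 e4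
      refine ⟨c, ((BS.toRS b1).trans (BS.toRS e2)).trans hc1, ?_⟩
      exact ((RS.ap (RS.rgt _ e5) f5).tail (Step.rule6 _ _ (hpm.trans hqm.symm))).trans hc2
    intro W a b hW h1 h2
    cases h1 with
    | atom _ h =>
        have := rep_atom h h2
        subst this
        exact ⟨b, ReflTransGen.refl, ReflTransGen.refl⟩
    | @app s s' t t' hs ht =>
        cases h2 with
        | atom _ h => exact (h _ _ rfl).elim
        | app hs2 ht2 =>
            obtain ⟨c, hc1, hc2⟩ := IHJ s' _ _ (by simp only [size] at hW; omega) hs hs2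
            obtain ⟨d, hd1, hd2⟩ := IHJ t' _ _ (by simp only [size] at hW; omega) ht ht2
            exact ⟨_, RS.ap hc1 hd1, RS.ap hc2 hd2⟩
        | @mark _ N1 N2 X Y hP b1 r1 b2 r2 =>
            obtain ⟨x0, rfl, h3⟩ := rep_D hs
            obtain ⟨c, hc1, hc2⟩ := core b x0 t X t' N1 N2 (by simp only [size] at hW; omega)
              (by simp only [size] at hW; omega) hP b1 r1 b2 r2 h3 ht
            exact ⟨c, hc2, hc1⟩
    | @mark _ N1 N2 X Y hP b1 r1 b2 r2 =>
        rcases rep_pair h2 with ⟨x0, y0, rfl, h3, h4⟩ | ⟨hM, N3, N4, b3, r3, b4, r4⟩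
        · exact core a x0 y0 X Y N1 N2 (by simp only [size] at hW; omega)
            (by simp only [size] at hW; omega) hP b1 r1 b2 r2 h3 h4
        · obtain ⟨W1, m1, m3, e1, e2, e3, e4, e5⟩ :=
            SC (size X) X le_rfl true [] [] N1 N3 (fun h => hP (PF.back b1 h))
              (fun h => hM (PF.back b3 h)) r1 r3
          obtain ⟨c, hc1, hc2⟩ := IHJ W1 m1 m3 (by simp only [size] at hW; omega) e4 e5
          exact ⟨c, ((BS.toRS b1).trans (BS.toRS e2)).trans hc1,
            ((BS.toRS b3).trans (BS.toRS e3)).trans hc2⟩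
  · -- the projection statement
    intro W i γ N x hW hN h1 h2
    simp only [Dp] at h1
    cases h1 with
    | atom _ h => exact (h _ _ rfl).elim
    | @app _ W1 _ W2 ha hb =>
        cases h2 with
        | atom _ h => exact (h _ _ rfl).elim
        | @app x1 _ x2 _ hc hd =>
            obtain ⟨c, hc1, hc2⟩ := IHJ W1 (pr i) x1 (by simp only [size] at hW; omega) ha hc
            have := RS_pr hc1
            subst this
            exact ⟨W2, N, x2, by simp only [size]; omega, ReflTransGen.refl, hb, hd,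
              RS.lft _ hc2⟩
        | mark _ _ _ _ _ =>
            obtain ⟨_, h, _⟩ := rep_D ha
            cases i <;> simp [pr] at h
    | @mark _ N1 N2 X Y hP b1 r1 b2 r2 =>
        obtain ⟨Na, rfl, c1⟩ := Dp_inv (γ := i :: γ) hN b1
        obtain ⟨Nb, rfl, c2⟩ := Dp_inv (γ := i :: γ) hN b2
        have hNa : ¬ PF Na := fun h => hN (PF.back c1 h)
        have hNb : ¬ PF Nb := fun h => hN (PF.back c2 h)
        rcases rep_pair h2 with ⟨x0, y0, rfl, h3, h4⟩ | ⟨hM, N3, N4, b3, r3, b4, r4⟩
        · obtain ⟨W1, Na', p1, e1, e2, e3, e4, e5⟩ :=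
            IHQ X true (i :: γ) Na x0 (by simp only [size] at hW; omega) hNa r1 h3
          obtain ⟨W2, Nb', q1, f1, f2, f3, f4, f5⟩ :=
            IHQ Y false (i :: γ) Nb y0 (by simp only [size] at hW; omega) hNb r2 h4
          have hp : E p1 (Dp (i :: γ) N) :=
            (e4.toE.trans e3.toE.symm).trans (Dp_E ((BS.toE c1).trans (BS.toE e2)).symm)
          have hq : E q1 (Dp (i :: γ) N) :=
            (f4.toE.trans f3.toE.symm).trans (Dp_E ((BS.toE c2).trans (BS.toE f2)).symm)
          have hxp : RS (app (app D x0) y0) p1 :=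
            (RS.ap (RS.rgt _ e5) f5).tail (Step.rule6 _ _ (hp.trans hq.symm))
          obtain ⟨W3, N3, p, g1, g2, g3, g4, g5⟩ :=
            IHQ W1 i γ Na' p1 (by simp only [size] at hW; omega)
              (fun h => hNa (PF.back e2 h)) e3 e4
          exact ⟨W3, N3, p, by simp only [size]; omega, (c1.trans e2).trans g2, g3, g4,
            hxp.trans g5⟩
        · obtain ⟨W1, Na', x1, e1, e2, e3, e4, e5⟩ :=
            SC (size X) X le_rfl true [] (i :: γ) Na N3 hNa
              (fun h => hM (PF.back b3 h)) r1 r3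
          obtain ⟨W3, N5, p, g1, g2, g3, g4, g5⟩ :=
            IHQ W1 i γ Na' x1 (by simp only [size] at hW; omega)
              (fun h => hNa (PF.back e2 h)) e4 e5
          exact ⟨W3, N5, p, by simp only [size]; omega, (c1.trans e2).trans g2, g3, g4,
            ((BS.toRS b3).trans (BS.toRS e3)).trans g5⟩

/-- `E`-equal terms are joinable. -/
theorem E_joinable {a b : Term V} (h : E a b) : ∃ c, RS a c ∧ RS b c := by
  obtain ⟨n, m, c, h1, h2, h3, h4⟩ := E_rep h
  obtain ⟨d, h5, h6⟩ := (JQ (size c)).1 c n m le_rfl h3 h4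
  exact ⟨d, (BS.toRS h1).trans h5, (BS.toRS h2).trans h6⟩

theorem red_eq : (Red : Term V → Term V → Prop) = Step E := by
  funext s t
  exact propext (red_iff s t)

end Proof

/-- **The rewrite relation of linearized combinatory logic with surjective pairing is
confluent**, for terms over any type of variables. -/
theorem result : ∀ V : Type, IsConfluent (Red : Term V → Term V → Prop) := by
  intro V t t₁ t₂ h1 h2
  rw [red_eq] at *
  exact E_joinable ((RS.toE h1).symm.trans (RS.toE h2))

end Pool.Agent.Results.MP_a981ee_lc.Confluence
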